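import Pool.Agent.Lib.MP_144d21_co.X4.Iface2

/-!
# MP_144d21_co, project X4, module NUMB (helper38)
-/

set_option autoImplicit false

namespace Pool.Agent.Xu.X4.H38

open Finset Polynomial

theorem prod_fact (k : ℕ) (hk : 2 ≤ k) :
    ∏ j ∈ Ico 2 (k + 1), ((j : ℤ) - 1) = ((k - 1).factorial : ℤ) := by
  induction k, hk using Nat.le_induction with
  | base =>
    rw [show Ico 2 (2 + 1) = {2} by decide, prod_singleton]
    norm_num
  | succ k hk ih =>
    rw [prod_Ico_succ_top (by omega), ih]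
    have : (k + 1 - 1).factorial = k * (k - 1).factorial := by
      rw [Nat.add_sub_cancel]
      exact (Nat.mul_factorial_pred (by omega)).symm
    rw [this]
    push_cast
    ring

theorem prod_bound2 (s : ℕ → ℕ) (j0 : ℕ) (h0 : s j0 ≤ 2) (h4 : ∀ j, 3 ≤ j → j ≠ j0 → s j ≤ 1)
    (k : ℕ) (hk : 3 ≤ k) : ∏ j ∈ Ico 2 (k + 1), ((j : ℤ) - 1) ^ s j ≤
      ((k - 1 : ℕ) : ℤ) * ((k - 1).factorial : ℤ) := by
  have h1 : ∏ j ∈ Ico 2 (k + 1), ((j : ℤ) - 1) ^ s j ≤
      ∏ j ∈ Ico 2 (k + 1), (((j : ℤ) - 1) * if j = j0 then (j : ℤ) - 1 else 1) := by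
    refine prod_le_prod (fun j hj => pow_nonneg ?_ _) fun j hj => ?_
    · have : (2 : ℤ) ≤ (j : ℤ) := by exact_mod_cast (mem_Ico.1 hj).1
      linarith
    · have h2 : (2 : ℤ) ≤ (j : ℤ) := by exact_mod_cast (mem_Ico.1 hj).1
      split_ifs with h
      · subst h
        calc ((j : ℤ) - 1) ^ s j ≤ ((j : ℤ) - 1) ^ 2 :=
              pow_le_pow_right₀ (by linarith) h0
          _ = _ := by ring
      · rcases Nat.lt_or_ge j 3 with h3 | h3
        · have h5 : j = 2 := by
            have := (mem_Ico.1 hj).1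
            omega
          subst h5
          norm_num
        · calc ((j : ℤ) - 1) ^ s j ≤ ((j : ℤ) - 1) ^ 1 :=
                pow_le_pow_right₀ (by linarith) (h4 j h3 h)
            _ = _ := by ring
  rw [prod_mul_distrib, prod_fact k (by omega), prod_ite_eq'] at h1
  refine h1.trans ?_
  rw [mul_comm]
  refine mul_le_mul_of_nonneg_right ?_ (by positivity)
  have h2 : ((k - 1 : ℕ) : ℤ) = (k : ℤ) - 1 := by
    push_cast [Nat.cast_sub (by omega : 1 ≤ k)]
    ring
  rw [h2]
  have h3 : (3 : ℤ) ≤ (k : ℤ) := by exact_mod_cast hk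
  split_ifs with h
  · have : (j0 : ℤ) ≤ (k : ℤ) := by exact_mod_cast (by have := (mem_Ico.1 h).2; omega : j0 ≤ k)
    linarith
  · linarith

theorem numb (hPev : PevS) (hChi : ChiS) (hCoef : CoefS) (hAlpha : AlphaS) (hBpos : BposS) :
    NumbS := by
  intro V _ _ G S k s j0 hk hj0 h2 hchi hsk h3 h4
  obtain ⟨he, hd0, hd1, hv, -⟩ := hPev k s
  have hC : IsChi (chi G S) G S := hChi V G S
  rw [hchi] at hC
  have hempty : ∀ q, q ≤ k ∧ s q ≠ 0 ↔ cols G S q = ∅ := by
    intro q
    rw [← he q, hC q]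
    norm_cast
    exact card_eq_zero
  have hne : S.Nonempty := h2.2.1.1
  have hs0 : s 0 = 1 := by
    have h : s 0 ≠ 0 := by
      refine ((hempty 0).2 ?_).2
      refine eq_empty_of_forall_notMem fun c hc => ?_
      obtain ⟨v, hv⟩ := hne
      exact absurd ((mem_cols.1 hc).1 v hv) (Nat.not_lt_zero _)
    have h' : ¬ 2 ≤ s 0 := by
      intro hh
      have h5 := hAlpha V G S h2.2.1
      unfold alp at h5
      rw [hchi, hd0 hh, mul_zero] at h5
      exact lt_irrefl _ h5
    omega
  have hb := hBpos V G S h2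
  have hs1 : s 1 = 1 := by
    have h : s 1 ≠ 0 := by
      refine ((hempty 1).2 ?_).2
      refine eq_empty_of_forall_notMem fun c hc => ?_
      obtain ⟨v, hv⟩ := hne
      obtain ⟨a, ha, b, hb, hba, hab⟩ := h2.2.1.2 {v} (singleton_subset_iff.2 hv)
        (singleton_nonempty v) (fun h => by
          have := h2.1
          rw [← h, card_singleton] at this
          omega)
      rw [mem_singleton] at ha
      subst ha
      have hc' := mem_cols.1 hc
      have h6 := hc'.1 a hv
      have h7 := hc'.1 b hb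
      exact hc'.2.2 a hv b hb hab (by omega)
    have h' : ¬ 2 ≤ s 1 := by
      intro hh
      unfold bet at hb
      rw [hchi, hd1 (by omega) hh, mul_zero] at hb
      exact lt_irrefl _ hb
    omega
  refine ⟨(hempty k).1 ⟨le_rfl, hsk⟩, ?_⟩
  have hdeg : (PP k s).natDegree = S.card := by
    rw [← hchi]
    exact (hCoef V G S).2.1
  have h8 := hv (by omega) hs0 hs1
  rw [hdeg, ← hchi] at h8
  unfold bet
  rw [h8]
  exact prod_bound2 s j0 h3 h4 k (by omega)

end Pool.Agent.Xu.X4.H38
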